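import Pool.Agent.L0h38.GI.Stm

/-! Project GI, module ELL. -/

set_option autoImplicit false

namespace Pool.Agent.L0h48.GI

open Pool.Agent.L0h38.GI Pool.Agent.L0h29.AL

variable {V : Type} {Γ : SimpleGraph V} {G : V → Type} [∀ v, Group (G v)]

theorem toPi_ret {K : Set V} {v : V} (h : v ∈ K) (y : GrP Γ G) :
    toPi (ret K y) v = toPi y v := by
  have h1 : (Pi.evalMonoidHom G v).comp (toPi.comp (ret (Γ := Γ) (G := G) K)) =
      (Pi.evalMonoidHom G v).comp toPi := by
    apply gp_ext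
    intro w x
    rw [MonoidHom.comp_apply, MonoidHom.comp_apply, MonoidHom.comp_apply]
    by_cases hw : w ∈ K
    · rw [ret_inj_mem hw]
    · rw [ret_inj_not hw, map_one]
      show (1 : G v) = toPi (inj Γ G w x) v
      rw [toPi_inj_ne]
      rintro rfl
      exact hw h
  exact DFunLike.congr_fun h1 y

theorem step (h1 : S_RET) (h3 : S_AMA) (h4 : S_BST) [Finite V] (X : Type) [Group X] (hX : FA X)
    (φ : X →* GrP Γ G) : ∀ (n : ℕ) (S : Set V), S.ncard = n →
    ∀ g : GrP Γ G, (∀ x, g⁻¹ * φ x * g ∈ P Γ G S) →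
    ∃ (g : GrP Γ G) (K : Set V), Γ.IsClique K ∧ ∀ x, g⁻¹ * φ x * g ∈ P Γ G K := by
  intro n
  induction n using Nat.strong_induction_on with
  | _ n ih =>
    intro S hS g hg
    by_cases hc : Γ.IsClique S
    · exact ⟨g, S, hc, hg⟩
    · rw [SimpleGraph.isClique_iff, Set.Pairwise] at hc
      push Not at hc
      obtain ⟨v, hv, w, hw, hne, hadj⟩ := hc
      -- the conjugate
      have key : ∀ T : Set V, (∃ g1 : GrP Γ G, ∀ x, g1⁻¹ * (g⁻¹ * φ x * g) * g1 ∈ P Γ G T) →
          (∃ u ∈ S, u ∉ T) → ∃ (g : GrP Γ G) (K : Set V), Γ.IsClique K ∧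
            ∀ x, g⁻¹ * φ x * g ∈ P Γ G K := by
        rintro T ⟨g1, hg1⟩ ⟨u, hu, huT⟩
        have hlt : (S ∩ T).ncard < n := by
          rw [← hS]
          apply Set.ncard_lt_ncard _ (Set.toFinite S)
          refine ⟨Set.inter_subset_left, fun hh => huT (hh hu).2⟩
        refine ih _ hlt (S ∩ T) rfl (g * ret S g1) (fun x => ?_)
        have h5 := (h1 V Γ G S T).2.2.1 _ (hg1 x)
        rw [map_mul, map_mul, map_inv, (h1 V Γ G S T).1 _ (hg x)] at h5
        have e : (g * ret S g1)⁻¹ * φ x * (g * ret S g1) =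
            (ret S g1)⁻¹ * (g⁻¹ * φ x * g) * ret S g1 := by group
        rw [e]
        exact h5
      obtain ⟨A, hA1, hA2, hA3⟩ := h3 V Γ G v
      obtain ⟨g1, τ, hg1⟩ := h4 (GrP Γ G) A X hX ((MulAut.conj g⁻¹).toMonoidHom.comp φ)
      have hg1' : ∀ x, g1⁻¹ * (g⁻¹ * φ x * g) * g1 ∈ A.A τ := by
        intro x
        have := hg1 x
        simpa using this
      cases τ with
      | true =>
        rw [hA1] at hg1'
        refine key _ ⟨g1, hg1'⟩ ⟨w, hw, ?_⟩
        intro h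
        rcases Set.mem_insert_iff.1 h with h | h
        · exact hne h.symm
        · exact hadj h
      | false =>
        rw [hA2] at hg1'
        exact key _ ⟨g1, hg1'⟩ ⟨v, hv, fun h => h rfl⟩

theorem t_ELL (h1 : S_RET) (h2 : S_CLQ) (h3 : S_AMA) (h4 : S_BST) (h5 : S_FAZ) : S_ELL := by
  intro V _ Γ G _ hG X _ hX φ
  obtain ⟨g, K0, hK0, hg⟩ := step h1 h3 h4 X hX φ _ Set.univ rfl 1 (fun x => by
    rw [P_top]
    exact Subgroup.mem_top _)
  refine ⟨g, {v | v ∈ K0 ∧ FA (G v)}, hK0.subset (fun v hv => hv.1), fun v hv => hv.2, fun x => ?_⟩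
  set K : Set V := {v | v ∈ K0 ∧ FA (G v)} with hK
  have hKK : K ⊆ K0 := fun v hv => hv.1
  set y := g⁻¹ * φ x * g with hy
  have hz : ret K y ∈ P Γ G K := (h1 V Γ G K K).2.1 y
  have heq : ret K y = y := by
    apply (h2 V Γ G K0 hK0 (Set.toFinite K0)).1 _ (P_mono hKK hz) _ (hg x)
    funext v
    by_cases hv : v ∈ K
    · exact toPi_ret hv y
    · rw [(h1 V Γ G K K).2.2.2.2.2 _ hz v hv]
      by_cases hv0 : v ∈ K0
      · have hnf : ¬ FA (G v) := fun h => hv ⟨hv0, h⟩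
        obtain ⟨e⟩ := (hG v).resolve_left hnf
        have h6 := h5 X hX (e.toMonoidHom.comp ((Pi.evalMonoidHom G v).comp
          (toPi.comp ((MulAut.conj g⁻¹).toMonoidHom.comp φ)))) x
        have h7 : e (toPi y v) = 1 := by
          rw [← h6, hy]
          simp
        exact ((MulEquiv.map_eq_one_iff e).1 h7).symm
      · exact ((h1 V Γ G K0 K0).2.2.2.2.2 _ (hg x) v hv0).symm
  rw [← heq]
  exact hz

end Pool.Agent.L0h48.GI
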