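import Pool.Agent.L0h38.GI.Stm

/-! Project GI, module MAX. -/

set_option autoImplicit false

namespace Pool.Agent.L0h48.GI

open Pool.Agent.L0h38.GI

/-- the subgroup of a finite FA clique has property FA -/
theorem fa_P (h2 : S_CLQ) (h3 : S_FAI) (h4 : S_FAQ) {V : Type} {Γ : SimpleGraph V}
    {G : V → Type} [∀ v, Group (G v)] {K : Set V} (hK : Γ.IsClique K) (hf : K.Finite)
    (hFA : ∀ v ∈ K, FA (G v)) : FA (P Γ G K) := by
  obtain ⟨κ, _, hr, _⟩ := (h2 V Γ G K hK hf).2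
  have : Finite K := hf
  have h5 := h3 K (fun v => G v) (fun v => hFA v.1 v.2)
  have hmem : ∀ z, κ z ∈ P Γ G K := fun z => by
    rw [← hr]
    exact ⟨z, rfl⟩
  refine h4 (∀ v : K, G v) (P Γ G K) h5 (κ.codRestrict (P Γ G K) hmem) ?_
  rintro ⟨y, hy⟩
  rw [← hr] at hy
  obtain ⟨z, hz⟩ := hy
  exact ⟨z, Subtype.ext hz⟩

theorem nontriv {X : Type} [Group X] (h : Ok X) : ∃ x : X, x ≠ 1 := by
  rcases h with ⟨_, _, h, _⟩ | ⟨⟨e⟩⟩
  · exact h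
  · refine ⟨e.symm (Multiplicative.ofAdd 1), fun h => ?_⟩
    rw [MulEquiv.map_eq_one_iff, ofAdd_eq_one] at h
    exact one_ne_zero h

/-- every FA clique is contained in a maximal one -/
theorem exists_max {W : Type} [Finite W] (Δ : SimpleGraph W) (H : W → Type) [∀ w, Group (H w)]
    (K1 : Set W) (h1 : Δ.IsClique K1) (h2 : ∀ w ∈ K1, FA (H w)) :
    ∃ K', MaxF Δ H K' ∧ K1 ⊆ K' := by
  obtain ⟨K', hle, hmax⟩ := Finite.exists_le_maximal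
    (p := fun K : Set W => Δ.IsClique K ∧ ∀ w ∈ K, FA (H w)) (a := K1) ⟨h1, h2⟩
  refine ⟨K', ⟨hmax.prop, fun K hK1 hK2 hle' => ?_⟩, hle⟩
  exact le_antisymm (hmax.le_of_ge ⟨hK1, hK2⟩ hle') hle'

/-- the image of an FA clique -/
theorem image (h1 : S_RET) (h2 : S_CLQ) (h3 : S_FAI) (h4 : S_FAQ) (h5 : S_ELL)
    {V W : Type} [Finite V] [Finite W] {Γ : SimpleGraph V} {Δ : SimpleGraph W}
    {G : V → Type} {H : W → Type} [∀ v, Group (G v)] [∀ w, Group (H w)]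
    (hH : ∀ w, Ok (H w)) (e : GrP Γ G ≃* GrP Δ H) (K : Set V) (hK : Γ.IsClique K)
    (hFA : ∀ v ∈ K, FA (G v)) : ∃ (g : GrP Δ H) (K' : Set W), MaxF Δ H K' ∧
      ∀ y ∈ P Γ G K, g⁻¹ * e y * g ∈ P Δ H K' := by
  obtain ⟨g, K1, hc, hfa, hg⟩ := h5 W Δ H (fun w => (hH w).imp (fun h => h.1) id) (P Γ G K)
    (fa_P h2 h3 h4 hK (Set.toFinite K) hFA) (e.toMonoidHom.comp (P Γ G K).subtype)
  obtain ⟨K', hK', hle⟩ := exists_max Δ H K1 hc hfa
  exact ⟨g, K', hK', fun y hy => P_mono hle (hg ⟨y, hy⟩)⟩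

/-- a subgroup `P K` contained in a conjugate is equal to it -/
theorem conj_eq (h1 : S_RET) {V : Type} {Γ : SimpleGraph V} {G : V → Type} [∀ v, Group (G v)]
    (K : Set V) (u : GrP Γ G) (hu : ∀ x ∈ P Γ G K, u⁻¹ * x * u ∈ P Γ G K) (h : GrP Γ G)
    (hh : h ∈ P Γ G K) : u * h * u⁻¹ ∈ P Γ G K := by
  have hR := h1 V Γ G K K
  have hr : ret K u ∈ P Γ G K := hR.2.1 u
  set y := ret K u * h * (ret K u)⁻¹ with hy
  have hyP : y ∈ P Γ G K := mul_mem (mul_mem hr hh) (inv_mem hr)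
  have h2 := hu y hyP
  have h3 : ret K (u⁻¹ * y * u) = u⁻¹ * y * u := hR.1 _ h2
  have h4 : ret K (u⁻¹ * y * u) = h := by
    rw [map_mul, map_mul, map_inv, hR.1 y hyP, hy]
    group
  have h5 : u * h * u⁻¹ = y := by
    rw [← h4, h3]
    group
  rw [h5]
  exact hyP

theorem t_MAX (h1 : S_RET) (h2 : S_CLQ) (h3 : S_FAI) (h4 : S_FAQ) (h5 : S_ELL) : S_MAX := by
  intro V W _ _ Γ Δ G H _ _ hG hH e K hK
  obtain ⟨g, K', hK', hg⟩ := image h1 h2 h3 h4 h5 hH e K hK.1.1 hK.1.2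
  obtain ⟨g2, K2, hK2, hg2⟩ := image h1 h2 h3 h4 h5 hG e.symm K' hK'.1.1 hK'.1.2
  set u := e.symm g * g2 with hu
  have hcomp : ∀ y, g2⁻¹ * e.symm (g⁻¹ * e y * g) * g2 = u⁻¹ * y * u := by
    intro y
    rw [map_mul, map_mul, map_inv, MulEquiv.symm_apply_apply, hu]
    group
  have hKu : ∀ x ∈ P Γ G K, u⁻¹ * x * u ∈ P Γ G K2 := by
    intro x hx
    rw [← hcomp]
    exact hg2 _ (hg x hx)
  have hsub : K ⊆ K2 := by
    intro v hv
    by_contra hv2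
    obtain ⟨a, ha⟩ := nontriv (hG v)
    have h6 := (h1 V Γ G K2 K2).2.2.2.2.2 _ (hKu _ (inj_mem hv a)) v hv2
    rw [map_mul, map_mul, map_inv] at h6
    have h7 : (toPi u v)⁻¹ * toPi (inj Γ G v a) v * toPi u v = 1 := h6
    rw [toPi_inj_same] at h7
    apply ha
    have h8 : a = toPi u v * ((toPi u v)⁻¹ * a * toPi u v) * (toPi u v)⁻¹ := by group
    rw [h8, h7]
    group
  have hKK : K2 = K := hK.2 K2 hK2.1.1 hK2.1.2 hsub
  rw [hKK] at hKu hg2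
  refine ⟨K', hK', g, fun y => ⟨hg y, fun hy => ?_⟩⟩
  have h6 := hg2 _ hy
  rw [hcomp] at h6
  have h7 := conj_eq h1 K u hKu _ h6
  have h8 : u * (u⁻¹ * y * u) * u⁻¹ = y := by group
  rw [h8] at h7
  exact h7

end Pool.Agent.L0h48.GI
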